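import Pool.Agent.Q211.AR.Sum

/-!
# A Liouville pair which is not algebraically recurrent

The group is the direct sum of countably many copies of `ℤ`; every law on it whose support
generates it is Liouville.
-/

set_option autoImplicit false

open MeasureTheory Filter Topology Pool.Agent.Q211.AR

namespace Pool.Agent.Results.MP_a29a94_pr.LiouvilleNotAR

/-- `f` is harmonic for the random walk with step law `μ`. -/
def Harmonic {G : Type} [Group G] (μ : PMF G) (f : G → ℝ) : Prop :=
  ∀ g : G, f g = ∑' h, (μ h).toReal * f (g * h)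

/-- The pair `(G, μ)` is Liouville: every bounded harmonic function is constant. -/
def Liouville {G : Type} [Group G] (μ : PMF G) : Prop :=
  ∀ f : G → ℝ, Harmonic μ f → (∃ C : ℝ, ∀ g, |f g| ≤ C) → ∃ c : ℝ, ∀ g, f g = c

section

variable {G : Type} [CommGroup G] (μ : PMF G)

theorem summable_toReal : Summable fun h => (μ h).toReal :=
  ENNReal.summable_toReal (by rw [μ.tsum_coe]; exact ENNReal.one_ne_top)

theorem tsum_toReal : ∑' h, (μ h).toReal = 1 := by
  rw [← ENNReal.tsum_toReal_eq (fun h => μ.apply_ne_top h), μ.tsum_coe]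
  rfl

theorem summable_mul {f : G → ℝ} {C : ℝ} (hC : ∀ g, |f g| ≤ C) :
    Summable fun h => (μ h).toReal * f h := by
  refine Summable.of_norm_bounded ((summable_toReal μ).mul_right C) fun h => ?_
  rw [norm_mul, Real.norm_eq_abs, Real.norm_eq_abs, abs_of_nonneg ENNReal.toReal_nonneg]
  exact mul_le_mul_of_nonneg_left (hC h) ENNReal.toReal_nonneg

/-- One inequality of the Choquet–Deny theorem. -/
theorem step_le {f : G → ℝ} (hf : Harmonic μ f) {C : ℝ} (hC : ∀ g, |f g| ≤ C) {h : G}
    (hh : h ∈ μ.support) (g : G) : f (g * h) ≤ f g := by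
  set F : G → ℝ := fun g => f (g * h) - f g with hF
  have hFb : ∀ g, |F g| ≤ 2 * C := fun g => by
    have h1 := abs_le.1 (hC (g * h))
    have h2 := abs_le.1 (hC g)
    exact abs_le.2 ⟨by simp only [hF]; linarith, by simp only [hF]; linarith⟩
  have hbdd : BddAbove (Set.range F) := ⟨2 * C, by
    rintro _ ⟨g, rfl⟩
    exact (abs_le.1 (hFb g)).2⟩
  set D := ⨆ g, F g with hD
  have hle : ∀ g, F g ≤ D := fun g => le_ciSup hbdd g
  by_contra hcon
  push Not at hcon
  have hDpos : 0 < D := lt_of_lt_of_le (by simp only [hF]; linarith) (hle g)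
  have hFh : Harmonic μ F := by
    intro g
    have h1 := hf (g * h)
    have h2 := hf g
    simp only [hF]
    rw [h1, h2, ← Summable.tsum_sub]
    · apply tsum_congr
      intro k
      rw [mul_right_comm g h k]
      ring
    · exact summable_mul μ (f := fun k => f (g * h * k)) fun k => hC _
    · exact summable_mul μ (f := fun k => f (g * k)) fun k => hC _
  set p := (μ h).toReal with hp
  have hppos : 0 < p := ENNReal.toReal_pos ((PMF.mem_support_iff _ _).1 hh) (μ.apply_ne_top h)
  have hstep : ∀ g, p * (D - F (g * h)) ≤ D - F g := by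
    intro g
    have h1 : D - F g = ∑' k, (μ k).toReal * (D - F (g * k)) := by
      have h2 : ∀ k, (μ k).toReal * (D - F (g * k)) =
          (μ k).toReal * D - (μ k).toReal * F (g * k) := fun k => by ring
      simp_rw [h2]
      rw [Summable.tsum_sub ((summable_toReal μ).mul_right D)
        (summable_mul μ (f := fun k => F (g * k)) fun k => hFb _), ← hFh g, tsum_mul_right,
        tsum_toReal, one_mul]
    rw [h1]
    have hs : Summable fun k => (μ k).toReal * (D - F (g * k)) := by
      have h2 : ∀ k, (μ k).toReal * (D - F (g * k)) =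
          (μ k).toReal * D - (μ k).toReal * F (g * k) := fun k => by ring
      simp_rw [h2]
      exact ((summable_toReal μ).mul_right D).sub
        (summable_mul μ (f := fun k => F (g * k)) fun k => hFb _)
    exact hs.le_tsum h fun k _ => mul_nonneg ENNReal.toReal_nonneg (sub_nonneg.2 (hle _))
  have hiter : ∀ g n, p ^ n * (D - F (g * h ^ n)) ≤ D - F g := by
    intro g n
    induction n with
    | zero => simp
    | succ n ih =>
      have h1 := hstep (g * h ^ n)
      rw [mul_assoc, ← pow_succ] at h1
      calc p ^ (n + 1) * (D - F (g * h ^ (n + 1)))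
          = p ^ n * (p * (D - F (g * h ^ (n + 1)))) := by ring
        _ ≤ p ^ n * (D - F (g * h ^ n)) := mul_le_mul_of_nonneg_left h1 (by positivity)
        _ ≤ D - F g := ih
  have hp1 : p ≤ 1 := by
    have := (summable_toReal μ).le_tsum h fun k _ => ENNReal.toReal_nonneg
    rwa [tsum_toReal] at this
  obtain ⟨N, hN⟩ := exists_nat_gt (2 * C / (D / 2))
  have hNp : 2 * C < N * (D / 2) := by
    rwa [div_lt_iff₀ (by linarith)] at hN
  have hε : 0 < (D / 2) * p ^ N := by positivity
  obtain ⟨g0, hg0⟩ := exists_lt_of_lt_ciSup (show D - (D / 2) * p ^ N < ⨆ g, F g by linarith)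
  have hhalf : ∀ j, j < N → D / 2 ≤ F (g0 * h ^ j) := by
    intro j hj
    have h1 := hiter g0 j
    have h2 : p ^ N ≤ p ^ j := pow_le_pow_of_le_one hppos.le hp1 hj.le
    have h3 : p ^ j * (D - F (g0 * h ^ j)) ≤ p ^ j * (D / 2) := by
      calc p ^ j * (D - F (g0 * h ^ j)) ≤ D - F g0 := h1
        _ ≤ (D / 2) * p ^ N := by linarith
        _ ≤ (D / 2) * p ^ j := mul_le_mul_of_nonneg_left h2 (by linarith)
        _ = p ^ j * (D / 2) := by ring
    have h4 := le_of_mul_le_mul_left h3 (pow_pos hppos j)
    linarith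
  have hsum : ∑ j ∈ Finset.range N, F (g0 * h ^ j) = f (g0 * h ^ N) - f g0 := by
    have := Finset.sum_range_sub (fun j => f (g0 * h ^ j)) N
    simp only [pow_zero, mul_one] at this
    rw [← this]
    refine Finset.sum_congr rfl fun j _ => ?_
    simp only [hF]
    rw [mul_assoc, ← pow_succ]
  have hlow : (N : ℝ) * (D / 2) ≤ ∑ j ∈ Finset.range N, F (g0 * h ^ j) := by
    calc (N : ℝ) * (D / 2) = ∑ _j ∈ Finset.range N, (D / 2) := by simp
      _ ≤ _ := Finset.sum_le_sum fun j hj => hhalf j (Finset.mem_range.1 hj)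
  have h1 := abs_le.1 (hC (g0 * h ^ N))
  have h2 := abs_le.1 (hC g0)
  linarith

theorem choquet_deny (hμ : Admissible μ) : Liouville μ := by
  rintro f hf ⟨C, hC⟩
  refine ⟨f 1, ?_⟩
  have hinv : ∀ h ∈ μ.support, h⁻¹ ∈ μ.support := by
    intro h hh
    rw [PMF.mem_support_iff] at hh ⊢
    rwa [hμ.1]
  have heq : ∀ h ∈ μ.support, ∀ g, f (g * h) = f g := by
    intro h hh g
    apply le_antisymm (step_le μ hf hC hh g)
    have := step_le μ hf hC (hinv h hh) (g * h)
    rwa [mul_inv_cancel_right] at this
  let T : Subgroup G :=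
    { carrier := {h | ∀ g, f (g * h) = f g}
      mul_mem' := fun {a b} ha hb g => by rw [← mul_assoc, hb, ha]
      one_mem' := fun g => by rw [mul_one]
      inv_mem' := fun {a} ha g => by
        have := ha (g * a⁻¹)
        rwa [inv_mul_cancel_right, eq_comm] at this }
  have hT : T = ⊤ := by
    rw [eq_top_iff, ← hμ.2, Subgroup.closure_le]
    exact fun h hh => heq h hh
  intro g
  have : g ∈ T := by
    rw [hT]
    trivial
  have h1 := this 1
  rwa [one_mul] at h1

end

/-- There are a countable group and a symmetric probability measure whose support generates it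
such that the random walk is Liouville, but for some `n ≥ 1` the semigroup generated by the walk
from time `n` on is different from the group with positive probability. -/
theorem result : ∃ (G : Type) (_ : Group G) (_ : Countable G) (μ : PMF G),
    Admissible μ ∧ Liouville μ ∧ (∃ n : ℕ, 1 ≤ n ∧ 0 < steps μ {ω | tail ω n ≠ ⊤}) ∧
    ∀ᵐ ω ∂(steps μ), ∃ n : ℕ, 1 ≤ n ∧ (1 : G) ∉ tail ω n := by
  refine ⟨Multiplicative (ℕ →₀ ℤ), inferInstance, inferInstanceAs (Countable (ℕ →₀ ℤ)), Sum.nu (Equiv.refl ℕ),
    Sum.nu_admissible _, choquet_deny _ (Sum.nu_admissible _), pos_of_Strong (Sum.nu_strong _),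
    Sum.nu_strong _⟩

end Pool.Agent.Results.MP_a29a94_pr.LiouvilleNotAR
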